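import Pool.Agent.Helper40.AV.St2
import Pool.Agent.Helper61.AV.TopUp

/-!
# LS7: rough integers without a large prime factor, second version
-/

set_option autoImplicit false

open Filter Topology

namespace Pool.Agent.Helper85.AV

open Pool.Agent.Helper40.AV Pool.Agent.Helper44
open Pool.Agent.Helper61.AV (sum_inv_PI_le one_le_cu continuousOn_cu rpow_ratio ratio_bounds
  PI_union PI_disj lp_le tendsto_err sq_level)

theorem mem_PI {a b : ℝ} (hb : 0 ≤ b) {p : ℕ} : p ∈ PI a b ↔ p.Prime ∧ a < (p : ℝ) ∧ (p : ℝ) ≤ b :=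
  Pool.Agent.Helper61.AV.mem_PI hb

/-- the functions -/
noncomputable def f₁ (a : ℝ) : ℝ := a / (0.145 * cu ((0.4995 - a) / 0.29))

noncomputable def f₂ (a : ℝ) : ℝ := 2 * a / (0.4995 - a)

theorem cont₁ : ContinuousOn f₁ (Set.Icc 0.145 0.2095) := by
  unfold f₁
  apply ContinuousOn.div
  · fun_prop
  · apply ContinuousOn.mul continuousOn_const
    apply continuousOn_cu.comp (by fun_prop)
    intro a ha
    simp only [Set.mem_Ioi]
    have := ha.2
    norm_num at this ⊢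
    linarith
  · intro a ha
    have := one_le_cu (u := (0.4995 - a) / 0.29)
      (by rw [le_div_iff₀ (by norm_num)]; norm_num; linarith [ha.2])
      (by rw [div_le_iff₀ (by norm_num)]; norm_num; linarith [ha.1])
    have h2 : (0 : ℝ) < 0.145 * cu ((0.4995 - a) / 0.29) := by
      apply mul_pos (by norm_num) (by linarith)
    exact h2.ne'

theorem cont₂ : ContinuousOn f₂ (Set.Icc 0.2095 0.433) := by
  unfold f₂
  apply ContinuousOn.div
  · fun_prop
  · fun_prop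
  · intro a ha
    have := ha.2
    norm_num at this ⊢
    linarith

theorem int₁ : ∫ a in (0.145 : ℝ)..(0.2095 : ℝ), f₁ a / a =
    ∫ a in (0.145 : ℝ)..(0.2095 : ℝ), 1 / (0.145 * cu ((0.4995 - a) / 0.29)) := by
  apply intervalIntegral.integral_congr
  intro a ha
  rw [Set.uIcc_of_le (by norm_num)] at ha
  have ha0 : a ≠ 0 := by have := ha.1; intro h; norm_num [h] at this
  change a / (0.145 * cu ((0.4995 - a) / 0.29)) / a = _
  rw [div_div, mul_comm (0.145 * cu _) a, ← div_div, div_self ha0]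

theorem int₂ : ∫ a in (0.2095 : ℝ)..(0.433 : ℝ), f₂ a / a =
    ∫ a in (0.2095 : ℝ)..(0.433 : ℝ), 2 / (0.4995 - a) := by
  apply intervalIntegral.integral_congr
  intro a ha
  rw [Set.uIcc_of_le (by norm_num)] at ha
  have ha0 : a ≠ 0 := by have := ha.1; intro h; norm_num [h] at this
  change 2 * a / (0.4995 - a) / a = _
  rw [div_div, mul_comm (0.4995 - a) a, mul_comm 2 a, mul_div_mul_left _ _ ha0]

/-- the upper bound -/
noncomputable def TT (C X : ℝ) : ℝ :=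
  (1 + X ^ (-0.0648 : ℝ)) / (1 - C / 0.145 / Real.log X) *
    (∑ p ∈ PI (X ^ (0.145 : ℝ)) (X ^ (0.2095 : ℝ)), (1 : ℝ) / p * f₁ (Real.log p / Real.log X)) +
  (1 + X ^ (-0.0648 : ℝ)) *
    (∑ p ∈ PI (X ^ (0.2095 : ℝ)) (X ^ (0.433 : ℝ)), (1 : ℝ) / p * f₂ (Real.log p / Real.log X)) +
  X ^ (-0.0003 : ℝ) * (2 * Real.log X ^ 2)

theorem tendsto_TT (hP : PrimeInt) (C : ℝ) : Tendsto (TT C) atTop
    (𝓝 ((∫ a in (0.145 : ℝ)..(0.2095 : ℝ), 1 / (0.145 * cu ((0.4995 - a) / 0.29))) +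
      (∫ a in (0.2095 : ℝ)..(0.433 : ℝ), 2 / (0.4995 - a)))) := by
  have h1 := hP 0.145 0.2095 f₁ (by norm_num) (by norm_num) cont₁
  have h2 := hP 0.2095 0.433 f₂ (by norm_num) (by norm_num) cont₂
  rw [int₁] at h1
  rw [int₂] at h2
  have h3 : Tendsto (fun X : ℝ => 1 + X ^ (-0.0648 : ℝ)) atTop (𝓝 (1 + 0)) :=
    (tendsto_rpow_neg_atTop (by norm_num)).const_add 1
  have h4 : Tendsto (fun X : ℝ => 1 - C / 0.145 / Real.log X) atTop (𝓝 (1 - 0)) :=
    (Tendsto.div_atTop tendsto_const_nhds Real.tendsto_log_atTop).const_sub 1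
  have h5 := (((h3.div h4 (by norm_num)).mul h1).add (h3.mul h2)).add tendsto_err
  have e : (1 + 0) / (1 - 0) * (∫ a in (0.145 : ℝ)..(0.2095 : ℝ), 1 / (0.145 * cu ((0.4995 - a) / 0.29))) +
      (1 + 0) * (∫ a in (0.2095 : ℝ)..(0.433 : ℝ), 2 / (0.4995 - a)) + 0 =
      (∫ a in (0.145 : ℝ)..(0.2095 : ℝ), 1 / (0.145 * cu ((0.4995 - a) / 0.29))) +
      (∫ a in (0.2095 : ℝ)..(0.433 : ℝ), 2 / (0.4995 - a)) := by ring
  rw [e] at h5
  exact h5

open Classical in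
/-- LS7 -/
theorem topUp2 (hS : SelbergP) (hL : GGlow) (hT : GGtriv) (hP : PrimeInt) : TopUp2 := by
  intro ε hε
  obtain ⟨C₀, hC₀⟩ := hL
  obtain ⟨C, hC, hC0⟩ : ∃ C : ℝ, (∀ z u : ℝ, 2 ≤ z → 1 ≤ u → u ≤ 2 →
      cu u * Real.log z - C ≤ GG z (z ^ u)) ∧ 0 ≤ C :=
    ⟨max C₀ 0, fun z u h1 h2 h3 => le_trans (by unfold cu; linarith [le_max_left C₀ 0])
      (hC₀ z u h1 h2 h3), le_max_right _ _⟩
  have hev : ∀ᶠ X : ℝ in atTop, TT C X < (∫ a in (0.145 : ℝ)..(0.2095 : ℝ), 1 / (0.145 * cu ((0.4995 - a) / 0.29))) +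
      (∫ a in (0.2095 : ℝ)..(0.433 : ℝ), 2 / (0.4995 - a)) + ε :=
    (tendsto_TT hP C).eventually_lt_const (by linarith)
  have hev2 : ∀ᶠ X : ℝ in atTop, C / 0.145 + 1 ≤ Real.log X :=
    Real.tendsto_log_atTop.eventually_ge_atTop _
  obtain ⟨X₀, hX₀⟩ := eventually_atTop.1 ((hev.and hev2).and (eventually_ge_atTop 256))
  refine ⟨X₀, fun X hX y l hl hlX => ?_⟩
  obtain ⟨⟨h1, h2⟩, h3⟩ := hX₀ X hX
  have hX1 : 1 < X := by linarith
  have hX0 : 0 < X := by linarith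
  have hlog : 0 < Real.log X := Real.log_pos hX1
  have hC1 : 0 ≤ C / 0.145 := by positivity
  have hκ : 0 < 1 - C / 0.145 / Real.log X := by
    rw [sub_pos, div_lt_one hlog]
    linarith
  have hz2 : 2 ≤ X ^ (0.145 : ℝ) := by
    calc (2 : ℝ) = (256 : ℝ) ^ (1 / 8 : ℝ) := by
          rw [show (256 : ℝ) = 2 ^ (8 : ℝ) by norm_num, ← Real.rpow_mul (by norm_num)]
          norm_num
      _ ≤ X ^ (1 / 8 : ℝ) := Real.rpow_le_rpow (by norm_num) h3 (by norm_num)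
      _ ≤ X ^ (0.145 : ℝ) := Real.rpow_le_rpow_of_exponent_le hX1.le (by norm_num)
  have hlogz : Real.log (X ^ (0.145 : ℝ)) = 0.145 * Real.log X := Real.log_rpow hX0 _
  have hl0 : (0 : ℝ) < l := lt_of_lt_of_le (Real.rpow_pos_of_pos hX0 _) hl
  set N : ℕ → ℝ := fun p => ((((Finset.Ico y (y + l)).filter fun n => p ∣ n ∧
        ∀ r : ℕ, r.Prime → r ∣ n → X ^ (0.145 : ℝ) < r).card : ℕ) : ℝ) with hN
  -- the general bound
  have hgen : ∀ (p : ℕ) (g : ℝ), 0 < (p : ℝ) → (p : ℝ) ≤ X ^ (0.433 : ℝ) →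
      Real.log p / Real.log X ≤ 0.433 → 0 < g → 0 ≤ Real.log p / Real.log X →
      g ≤ GG (X ^ (0.145 : ℝ)) (X ^ ((0.4995 - Real.log p / Real.log X) / 2)) →
      Real.log p / Real.log X * N p ≤
        Real.log p / Real.log X * ((l : ℝ) / p * (1 + X ^ (-0.0648 : ℝ)) / g) +
          X ^ (0.4995 : ℝ) * (1 / p) := by
    intro p g hp0 hp1 ha hg ha0 hgG
    have hp1' : 1 ≤ p := by exact_mod_cast (Nat.cast_pos.1 hp0)
    have hp2 : (p : ℝ) ≤ X ^ (0.435 : ℝ) :=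
      hp1.trans (Real.rpow_le_rpow_of_exponent_le hX1.le (by norm_num))
    have hY : 1 ≤ X ^ ((0.4995 - Real.log p / Real.log X) / 2) :=
      Real.one_le_rpow hX1.le (by linarith)
    have h4 := hS y l p (X ^ (0.145 : ℝ)) (X ^ ((0.4995 - Real.log p / Real.log X) / 2)) hp1' hY
    rw [sq_level hX1 hp0] at h4
    have h5 : ((l : ℝ) / p + 1) / GG (X ^ (0.145 : ℝ))
        (X ^ ((0.4995 - Real.log p / Real.log X) / 2)) ≤
        (l : ℝ) / p * (1 + X ^ (-0.0648 : ℝ)) / g := by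
      apply div_le_div₀ (by positivity) (lp_le hX1 hl hp0 hp2) hg hgG
    have h6 : N p ≤ (l : ℝ) / p * (1 + X ^ (-0.0648 : ℝ)) / g + X ^ (0.4995 : ℝ) / p :=
      h4.trans (by linarith)
    have h7 : Real.log p / Real.log X * (X ^ (0.4995 : ℝ) / p) ≤ X ^ (0.4995 : ℝ) * (1 / p) := by
      rw [mul_one_div]
      apply mul_le_of_le_one_left (by positivity)
      linarith
    calc Real.log p / Real.log X * N p ≤ Real.log p / Real.log X *
          ((l : ℝ) / p * (1 + X ^ (-0.0648 : ℝ)) / g + X ^ (0.4995 : ℝ) / p) :=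
          mul_le_mul_of_nonneg_left h6 ha0
      _ ≤ _ := by rw [mul_add]; linarith
  -- the first range
  have hr1 : ∀ p ∈ PI (X ^ (0.145 : ℝ)) (X ^ (0.2095 : ℝ)), Real.log p / Real.log X * N p ≤
      (l : ℝ) / Real.log X * ((1 + X ^ (-0.0648 : ℝ)) / (1 - C / 0.145 / Real.log X) *
        (1 / p * f₁ (Real.log p / Real.log X))) + X ^ (0.4995 : ℝ) * (1 / p) := by
    intro p hp
    rw [mem_PI (by positivity)] at hp
    obtain ⟨ha1, ha2⟩ := ratio_bounds hX1 hp.2.1 hp.2.2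
    have hp0 : 0 < (p : ℝ) := lt_trans (Real.rpow_pos_of_pos hX0 _) hp.2.1
    set a : ℝ := Real.log p / Real.log X with ha
    have hu1 : 1 ≤ (0.4995 - a) / 0.29 := by
      rw [le_div_iff₀ (by norm_num)]; linarith
    have hu2 : (0.4995 - a) / 0.29 ≤ 2 := by
      rw [div_le_iff₀ (by norm_num)]; linarith
    have hcu := one_le_cu hu1 hu2
    have hg : cu ((0.4995 - a) / 0.29) * (0.145 * Real.log X) * (1 - C / 0.145 / Real.log X) ≤
        GG (X ^ (0.145 : ℝ)) (X ^ ((0.4995 - a) / 2)) := by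
      have h4 := hC (X ^ (0.145 : ℝ)) ((0.4995 - a) / 0.29) hz2 hu1 hu2
      rw [hlogz, ← Real.rpow_mul hX0.le,
        show (0.145 : ℝ) * ((0.4995 - a) / 0.29) = (0.4995 - a) / 2 by ring] at h4
      refine le_trans ?_ h4
      have e : cu ((0.4995 - a) / 0.29) * (0.145 * Real.log X) * (1 - C / 0.145 / Real.log X) =
          cu ((0.4995 - a) / 0.29) * (0.145 * Real.log X) - cu ((0.4995 - a) / 0.29) * C := by
        field_simp
      rw [e]
      nlinarith [mul_nonneg (sub_nonneg.2 hcu) hC0]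
    have hp433 : (p : ℝ) ≤ X ^ (0.433 : ℝ) :=
      hp.2.2.trans (Real.rpow_le_rpow_of_exponent_le hX1.le (by norm_num))
    have h5 := hgen p _ hp0 hp433 (by linarith) (by positivity) (by linarith) hg
    refine h5.trans (le_of_eq ?_)
    have e : a * ((l : ℝ) / p * (1 + X ^ (-0.0648 : ℝ)) /
        (cu ((0.4995 - a) / 0.29) * (0.145 * Real.log X) * (1 - C / 0.145 / Real.log X))) =
        (l : ℝ) / Real.log X * ((1 + X ^ (-0.0648 : ℝ)) / (1 - C / 0.145 / Real.log X) *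
        (1 / p * f₁ a)) := by
      unfold f₁
      have hcu0 : cu ((0.4995 - a) / 0.29) ≠ 0 := by linarith
      have hκ0 := hκ.ne'
      generalize 1 - C / 0.145 / Real.log X = κ at *
      generalize cu ((0.4995 - a) / 0.29) = c at *
      generalize X ^ (-0.0648 : ℝ) = δ at *
      have hlog0 := hlog.ne'
      have hp00 := hp0.ne'
      clear_value a
      field_simp
    rw [e]
  -- the second range
  have hr2 : ∀ p ∈ PI (X ^ (0.2095 : ℝ)) (X ^ (0.433 : ℝ)), Real.log p / Real.log X * N p ≤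
      (l : ℝ) / Real.log X * ((1 + X ^ (-0.0648 : ℝ)) *
        (1 / p * f₂ (Real.log p / Real.log X))) + X ^ (0.4995 : ℝ) * (1 / p) := by
    intro p hp
    rw [mem_PI (by positivity)] at hp
    obtain ⟨ha1, ha2⟩ := ratio_bounds hX1 hp.2.1 hp.2.2
    have hp0 : 0 < (p : ℝ) := lt_trans (Real.rpow_pos_of_pos hX0 _) hp.2.1
    set a : ℝ := Real.log p / Real.log X with ha
    have hY : 1 ≤ X ^ ((0.4995 - a) / 2) := Real.one_le_rpow hX1.le (by linarith)
    have hYz : X ^ ((0.4995 - a) / 2) ≤ X ^ (0.145 : ℝ) :=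
      Real.rpow_le_rpow_of_exponent_le hX1.le (by linarith)
    have hg := hT _ _ hY hYz
    rw [Real.log_rpow hX0] at hg
    have hpos : 0 < 0.4995 - a := by linarith
    have h5 := hgen p _ hp0 hp.2.2 (by linarith) (by positivity) (by linarith) hg
    refine h5.trans (le_of_eq ?_)
    have e : a * ((l : ℝ) / p * (1 + X ^ (-0.0648 : ℝ)) / ((0.4995 - a) / 2 * Real.log X)) =
        (l : ℝ) / Real.log X * ((1 + X ^ (-0.0648 : ℝ)) * (1 / p * f₂ a)) := by
      unfold f₂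
      have hpos0 := hpos.ne'
      generalize 0.4995 - a = c at *
      generalize X ^ (-0.0648 : ℝ) = δ at *
      have hlog0 := hlog.ne'
      have hp00 := hp0.ne'
      clear_value a
      field_simp
    rw [e]
  -- summation
  have hb0 : 0 ≤ X ^ (0.2095 : ℝ) := by positivity
  have hab : X ^ (0.145 : ℝ) ≤ X ^ (0.2095 : ℝ) :=
    Real.rpow_le_rpow_of_exponent_le hX1.le (by norm_num)
  have hbc : X ^ (0.2095 : ℝ) ≤ X ^ (0.433 : ℝ) :=
    Real.rpow_le_rpow_of_exponent_le hX1.le (by norm_num)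
  have hcX : X ^ (0.433 : ℝ) ≤ X := by
    calc X ^ (0.433 : ℝ) ≤ X ^ (1 : ℝ) := Real.rpow_le_rpow_of_exponent_le hX1.le (by norm_num)
      _ = X := Real.rpow_one X
  have hinv : ∑ p ∈ PI (X ^ (0.145 : ℝ)) (X ^ (0.2095 : ℝ)), (1 : ℝ) / p +
      ∑ p ∈ PI (X ^ (0.2095 : ℝ)) (X ^ (0.433 : ℝ)), (1 : ℝ) / p ≤ 1 + Real.log X := by
    rw [← Finset.sum_union (PI_disj hb0 hbc), ← PI_union hb0 hab hbc]
    exact sum_inv_PI_le (by positivity) hcX hX1.le
  have hlog1 : 1 ≤ Real.log X := by linarith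
  have herr : X ^ (0.4995 : ℝ) * (1 + Real.log X) ≤
      (l : ℝ) / Real.log X * (X ^ (-0.0003 : ℝ) * (2 * Real.log X ^ 2)) := by
    have e : (l : ℝ) / Real.log X * (X ^ (-0.0003 : ℝ) * (2 * Real.log X ^ 2)) =
        (l : ℝ) * X ^ (-0.0003 : ℝ) * (2 * Real.log X) := by
      field_simp
    rw [e]
    have h6 : X ^ (0.4995 : ℝ) ≤ (l : ℝ) * X ^ (-0.0003 : ℝ) := by
      calc X ^ (0.4995 : ℝ) = X ^ (0.4998 : ℝ) * X ^ (-0.0003 : ℝ) := by
            rw [← Real.rpow_add hX0]; norm_num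
        _ ≤ _ := by gcongr
    apply mul_le_mul h6 (by linarith) (by linarith) (by positivity)
  rw [PI_union hb0 hab hbc, Finset.sum_union (PI_disj hb0 hbc)]
  calc _ ≤ ∑ p ∈ PI (X ^ (0.145 : ℝ)) (X ^ (0.2095 : ℝ)), ((l : ℝ) / Real.log X *
        ((1 + X ^ (-0.0648 : ℝ)) / (1 - C / 0.145 / Real.log X) *
        (1 / p * f₁ (Real.log p / Real.log X))) + X ^ (0.4995 : ℝ) * (1 / p)) +
      ∑ p ∈ PI (X ^ (0.2095 : ℝ)) (X ^ (0.433 : ℝ)), ((l : ℝ) / Real.log X *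
        ((1 + X ^ (-0.0648 : ℝ)) * (1 / p * f₂ (Real.log p / Real.log X))) +
        X ^ (0.4995 : ℝ) * (1 / p)) :=
        add_le_add (Finset.sum_le_sum hr1) (Finset.sum_le_sum hr2)
    _ = (l : ℝ) / Real.log X * ((1 + X ^ (-0.0648 : ℝ)) / (1 - C / 0.145 / Real.log X) *
          (∑ p ∈ PI (X ^ (0.145 : ℝ)) (X ^ (0.2095 : ℝ)), (1 : ℝ) / p *
            f₁ (Real.log p / Real.log X)) +
          (1 + X ^ (-0.0648 : ℝ)) * (∑ p ∈ PI (X ^ (0.2095 : ℝ)) (X ^ (0.433 : ℝ)), (1 : ℝ) / p *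
            f₂ (Real.log p / Real.log X))) +
        X ^ (0.4995 : ℝ) * (∑ p ∈ PI (X ^ (0.145 : ℝ)) (X ^ (0.2095 : ℝ)), (1 : ℝ) / p +
          ∑ p ∈ PI (X ^ (0.2095 : ℝ)) (X ^ (0.433 : ℝ)), (1 : ℝ) / p) := by
        rw [Finset.sum_add_distrib, Finset.sum_add_distrib, ← Finset.mul_sum, ← Finset.mul_sum,
          ← Finset.mul_sum, ← Finset.mul_sum, ← Finset.mul_sum, ← Finset.mul_sum]
        ring
    _ ≤ (l : ℝ) / Real.log X * ((1 + X ^ (-0.0648 : ℝ)) / (1 - C / 0.145 / Real.log X) *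
          (∑ p ∈ PI (X ^ (0.145 : ℝ)) (X ^ (0.2095 : ℝ)), (1 : ℝ) / p *
            f₁ (Real.log p / Real.log X)) +
          (1 + X ^ (-0.0648 : ℝ)) * (∑ p ∈ PI (X ^ (0.2095 : ℝ)) (X ^ (0.433 : ℝ)), (1 : ℝ) / p *
            f₂ (Real.log p / Real.log X))) +
        (l : ℝ) / Real.log X * (X ^ (-0.0003 : ℝ) * (2 * Real.log X ^ 2)) := by
        have h8 := mul_le_mul_of_nonneg_left hinv (show 0 ≤ X ^ (0.4995 : ℝ) by positivity)
        linarith
    _ = (l : ℝ) / Real.log X * TT C X := by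
        unfold TT
        ring
    _ ≤ (l : ℝ) / Real.log X * ((∫ a in (0.145 : ℝ)..(0.2095 : ℝ),
          1 / (0.145 * cu ((0.4995 - a) / 0.29))) +
          (∫ a in (0.2095 : ℝ)..(0.433 : ℝ), 2 / (0.4995 - a)) + ε) :=
        mul_le_mul_of_nonneg_left h1.le (by positivity)
    _ = _ := by ring

end Pool.Agent.Helper85.AV
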